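import Pool.Agent.Helper70.HS.Stmts2

/-!
Module `SPH`: the unit sphere of the Euclidean space of dimension `m + 1` has Hausdorff
dimension at least `m`.
-/

namespace Pool.Agent.Helper93.HS

open Pool.Agent.Helper70.HS

theorem sph_lip (m : ℕ) : LipschitzWith 1
    (fun (e : EuclideanSpace ℝ (Fin (m + 1))) (j : Fin m) => e (Fin.castSucc j)) := by
  refine LipschitzWith.of_dist_le_mul fun a b => ?_
  rw [NNReal.coe_one, one_mul]
  refine (dist_pi_le_iff dist_nonneg).2 fun j => ?_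
  rw [dist_eq_norm, dist_eq_norm]
  exact PiLp.norm_apply_le (a - b) (Fin.castSucc j)

theorem st_SPH : ST_SPH := by
  intro m
  rw [ENNReal.ofReal_natCast]
  have hr : (0 : ℝ) < 1 / (m + 1) := by positivity
  have hb : dimH (Metric.ball (0 : Fin m → ℝ) (1 / (m + 1))) = m :=
    Real.dimH_ball_pi_fin 0 hr
  rw [← hb]
  refine le_trans (dimH_mono (t := (fun (e : EuclideanSpace ℝ (Fin (m + 1))) (j : Fin m) =>
    e (Fin.castSucc j)) '' {e : EuclideanSpace ℝ (Fin (m + 1)) | ‖e‖ = 1}) ?_)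
    ((sph_lip m).dimH_image_le _)
  intro x hx
  rw [mem_ball_zero_iff, pi_norm_lt_iff hr] at hx
  have hs : ∑ j, (x j) ^ 2 ≤ 1 := by
    have h1 : ∀ j ∈ Finset.univ, (x j) ^ 2 ≤ (1 / ((m : ℝ) + 1)) ^ 2 := by
      intro j _
      have h2 := hx j
      rw [Real.norm_eq_abs] at h2
      rw [← sq_abs (x j)]
      exact pow_le_pow_left₀ (abs_nonneg _) h2.le 2
    refine (Finset.sum_le_sum h1).trans ?_
    rw [Finset.sum_const, Finset.card_univ, Fintype.card_fin, nsmul_eq_mul, div_pow, one_pow,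
      mul_one_div, div_le_one (by positivity)]
    have h3 : (0 : ℝ) ≤ m := Nat.cast_nonneg m
    nlinarith
  refine ⟨WithLp.toLp 2 (Fin.snoc (α := fun _ => ℝ) x (Real.sqrt (1 - ∑ j, (x j) ^ 2))), ?_, ?_⟩
  · show ‖_‖ = 1
    rw [EuclideanSpace.norm_eq, Fin.sum_univ_castSucc]
    simp only [Fin.snoc_castSucc, Fin.snoc_last, Real.norm_eq_abs, sq_abs]
    rw [Real.sq_sqrt (by linarith)]
    simp
  · funext j
    simp

end Pool.Agent.Helper93.HS
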